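import Mathlib

set_option autoImplicit false

open MeasureTheory Set ProbabilityTheory

namespace Pool.Agent.H.MP_0a3467_an

/-- representative in `[0,1)` -/
noncomputable def r (θ : UnitAddCircle) : ℝ := (AddCircle.equivIco 1 0 θ : ℝ)

lemma r_meas : Measurable r :=
  measurable_subtype_coe.comp (AddCircle.measurableEquivIco 1 0).measurable

lemma r_coe (x : ℝ) : r (x : UnitAddCircle) = Int.fract x := by
  have := AddCircle.coe_equivIco_mk_apply (1 : ℝ) x
  simpa [r] using this

lemma coe_r (θ : UnitAddCircle) : ((r θ : ℝ) : UnitAddCircle) = θ := AddCircle.coe_equivIco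

lemma r_add (θ : UnitAddCircle) (t : ℝ) : r (θ + (t : UnitAddCircle)) = Int.fract (r θ + t) := by
  rw [← r_coe, AddCircle.coe_add, coe_r]

lemma r_mem (θ : UnitAddCircle) : 0 ≤ r θ ∧ r θ < 1 := by
  have := (AddCircle.equivIco 1 0 θ).2
  simpa [r] using this

abbrev Om := ℤ → Bool

noncomputable def coin : Measure Bool := uniformOn (univ : Set Bool)

instance : IsProbabilityMeasure coin :=
  isProbabilityMeasure_uniformOn finite_univ univ_nonempty

noncomputable def nu : Measure Om := Measure.infinitePi (fun _ => coin)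

instance : IsProbabilityMeasure nu := by unfold nu; infer_instance

lemma coin_single (b : Bool) : coin {b} = 1 / 2 := by
  rw [coin, uniformOn_univ]; simp

lemma coin_xor (a : Bool) : coin.map (fun b => xor b a) = coin := by
  refine Measure.ext_of_singleton fun b => ?_
  rw [Measure.map_apply (measurable_of_countable _) (measurableSet_singleton _)]
  have : (fun b' => xor b' a) ⁻¹' {b} = {xor b a} := by
    ext y; cases a <;> cases b <;> cases y <;> simp
  rw [this, coin_single, coin_single]

/-- the shift, conjugated by the flip `c` -/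
def g (c : Om) (k : ℤ) (x : Om) : Om := fun i => xor (x (i + k)) (xor (c (i + k)) (c i))

lemma g_zero (c x : Om) : g c 0 x = x := by
  funext i; simp [g]

lemma g_add (c : Om) (k l : ℤ) (x : Om) : g c k (g c l x) = g c (k + l) x := by
  funext i
  simp only [g, add_assoc]
  cases x (i + (k + l)) <;> cases c (i + (k + l)) <;> cases c (i + k) <;> cases c i <;> rfl

lemma g_meas (c : Om) (k : ℤ) : Measurable (g c k) := by
  refine measurable_pi_lambda _ fun i => ?_
  exact (measurable_of_countable (fun b => xor b (xor (c (i + k)) (c i)))).comp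
    (measurable_pi_apply (i + k))

lemma shift_map (k : ℤ) : nu.map (fun (x : Om) i => x (i + k)) = nu := by
  have h := Measure.infinitePi_map_piCongrLeft (fun _ : ℤ => coin) (Equiv.addRight (-k))
  have e : (fun (x : Om) i => x (i + k)) =
      (MeasurableEquiv.piCongrLeft (fun _ : ℤ => Bool) (Equiv.addRight (-k))) := by
    funext x i
    simp [MeasurableEquiv.coe_piCongrLeft, Equiv.piCongrLeft_apply_eq_cast]
  rw [e]; exact h

lemma g_map (c : Om) (k : ℤ) : nu.map (g c k) = nu := by
  have h1 : g c k = (fun (y : Om) i => xor (y i) (xor (c (i + k)) (c i))) ∘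
      (fun (x : Om) i => x (i + k)) := rfl
  have m1 : Measurable (fun (x : Om) i => x (i + k)) :=
    measurable_pi_lambda _ fun i => measurable_pi_apply _
  have m2 : Measurable (fun (y : Om) i => xor (y i) (xor (c (i + k)) (c i))) :=
    measurable_pi_lambda _ fun i =>
      (measurable_of_countable (fun b => xor b (xor (c (i + k)) (c i)))).comp
        (measurable_pi_apply i)
  rw [h1, ← Measure.map_map m2 m1, shift_map]
  have := Measure.infinitePi_map_pi (fun _ : ℤ => coin)
    (f := fun i b => xor b (xor (c (i + k)) (c i))) (fun i => measurable_of_countable _)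
  unfold nu
  rw [this]
  simp only [coin_xor]

abbrev X := UnitAddCircle × Om

noncomputable def mu : Measure X := (volume : Measure UnitAddCircle).prod nu

instance : IsProbabilityMeasure (volume : Measure UnitAddCircle) := ⟨UnitAddCircle.measure_univ⟩

instance : IsProbabilityMeasure mu := by unfold mu; infer_instance

/-- the suspension flow -/
noncomputable def fl (c : Om) (t : ℝ) (p : X) : X :=
  (p.1 + (t : UnitAddCircle), g c ⌊r p.1 + t⌋ p.2)

lemma fl_zero (c : Om) (p : X) : fl c 0 p = p := by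
  have : ⌊r p.1⌋ = 0 := Int.floor_eq_zero_iff.2 (r_mem p.1)
  simp [fl, this, g_zero]

lemma fl_add (c : Om) (s t : ℝ) (p : X) : fl c s (fl c t p) = fl c (s + t) p := by
  simp only [fl, g_add, r_add]
  refine Prod.ext ?_ ?_
  · simp only [AddCircle.coe_add]; abel
  · simp only
    congr 1
    have : Int.fract (r p.1 + t) + s = (r p.1 + (s + t)) - (⌊r p.1 + t⌋ : ℤ) := by
      rw [Int.fract]; ring
    rw [this, Int.floor_sub_intCast]; ring

lemma unc_meas (c : Om) (t : ℝ) :
    Measurable (Function.uncurry fun (θ : UnitAddCircle) (x : Om) => g c ⌊r θ + t⌋ x) := by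
  have h1 : Measurable (fun q : Om × ℤ => g c q.2 q.1) :=
    measurable_from_prod_countable_left fun k => g_meas c k
  have h2 : Measurable (fun p : X => (p.2, ⌊r p.1 + t⌋)) :=
    measurable_snd.prodMk (Int.measurable_floor.comp ((r_meas.comp measurable_fst).add_const t))
  exact h1.comp h2

lemma fl_mp (c : Om) (t : ℝ) : MeasurePreserving (fl c t) mu mu :=
  (measurePreserving_add_right (volume : Measure UnitAddCircle) (t : UnitAddCircle)).skew_product
    (unc_meas c t) (ae_of_all _ fun _ => g_map c _)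

/-- the flow as a measurable equivalence -/
noncomputable def fe (c : Om) (t : ℝ) : X ≃ᵐ X where
  toFun := fl c t
  invFun := fl c (-t)
  left_inv p := by rw [fl_add, neg_add_cancel, fl_zero]
  right_inv p := by rw [fl_add, add_neg_cancel, fl_zero]
  measurable_toFun := (fl_mp c t).measurable
  measurable_invFun := (fl_mp c (-t)).measurable

lemma fe_apply (c : Om) (t : ℝ) (p : X) : fe c t p = fl c t p := rfl

def A : Set X := {θ | 1 / 2 ≤ r θ} ×ˢ {x | x 0 = true}

lemma A_meas : MeasurableSet A :=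
  (measurableSet_le measurable_const r_meas).prod
    (measurableSet_eq_fun (measurable_pi_apply (0 : ℤ)) measurable_const)

lemma A_pos : 0 < mu A := by
  rw [A, mu, Measure.prod_prod]
  refine ENNReal.mul_pos (ne_of_gt ?_) (ne_of_gt ?_)
  · have h := (UnitAddCircle.measurePreserving_mk 0).measure_preimage
      (measurableSet_le (measurable_const (a := (1 / 2 : ℝ))) r_meas).nullMeasurableSet
    rw [← h]
    have hsub : Ioo (1 / 2 : ℝ) 1 ⊆
        ((↑) : ℝ → UnitAddCircle) ⁻¹' {θ | 1 / 2 ≤ r θ} ∩ Ioc 0 (0 + 1) := by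
      intro x hx
      refine ⟨?_, by constructor <;> linarith [hx.1, hx.2]⟩
      show 1 / 2 ≤ r (x : UnitAddCircle)
      rw [r_coe, Int.fract_eq_self.2 ⟨by linarith [hx.1], hx.2⟩]
      exact hx.1.le
    rw [Measure.restrict_apply' measurableSet_Ioc]
    refine lt_of_lt_of_le ?_ (measure_mono hsub)
    rw [Real.volume_Ioo]; norm_num
  · have h := (measurePreserving_eval_infinitePi (fun _ : ℤ => coin) 0).measure_preimage
      (measurableSet_singleton true).nullMeasurableSet
    have e : {x : Om | x 0 = true} =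
        (Function.eval (0 : ℤ) : Om → Bool) ⁻¹' ({true} : Set Bool) := rfl
    rw [e, nu, h, coin_single]; norm_num

lemma mu_single (p : X) : mu {p} = 0 := by
  obtain ⟨θ, x⟩ := p
  rw [← singleton_prod_singleton, mu, Measure.prod_prod]
  have : (volume : Measure UnitAddCircle) {θ} = 0 := by
    rw [← Metric.closedBall_zero, AddCircle.volume_closedBall]; simp
  rw [this, zero_mul]

/-- the flip of all coordinates but one -/
def c1 : Om := fun i => decide (i ≠ 0)

lemma key (s t : ℝ) (hst : s ≤ t) (hts : t < s + 1 / 2) (ht : 1 / 2 ≤ t) (p : X) (h0 : p ∈ A)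
    (h1 : fl (fun _ => false) s p ∈ A) (h2 : fl c1 t p ∈ A) : False := by
  obtain ⟨a0, -⟩ := h0
  obtain ⟨a1, b1⟩ := h1
  obtain ⟨a2, b2⟩ := h2
  simp only [fl, mem_ofPred_eq, r_add, g] at a0 a1 a2 b1 b2
  have e : ⌊r p.1 + t⌋ = ⌊r p.1 + s⌋ := by
    have f1 := Int.floor_add_fract (r p.1 + s)
    have f2 := Int.floor_add_fract (r p.1 + t)
    have f3 := Int.fract_lt_one (r p.1 + s)
    have f4 := Int.fract_lt_one (r p.1 + t)
    have l1 : ((⌊r p.1 + t⌋ : ℤ) : ℝ) < (⌊r p.1 + s⌋ : ℤ) + 1 := by linarith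
    have l2 : ((⌊r p.1 + s⌋ : ℤ) : ℝ) < (⌊r p.1 + t⌋ : ℤ) + 1 := by linarith
    have l1' : ⌊r p.1 + t⌋ < ⌊r p.1 + s⌋ + 1 := by exact_mod_cast l1
    have l2' : ⌊r p.1 + s⌋ < ⌊r p.1 + t⌋ + 1 := by exact_mod_cast l2
    omega
  have p1 : 1 ≤ ⌊r p.1 + t⌋ := Int.le_floor.2 (by push_cast; linarith)
  rw [e] at b2 p1
  have hne : ⌊r p.1 + s⌋ ≠ 0 := by omega
  simp [c1, hne] at b1 b2
  simp [b1] at b2

lemma logs (m n : ℕ) (hm : 1 ≤ m) (hn : 1 ≤ n) :
    Real.logb 4 ((m + 1 * n : ℕ) : ℝ) ≤ Real.logb 4 ((m + 2 * n : ℕ) : ℝ) ∧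
    Real.logb 4 ((m + 2 * n : ℕ) : ℝ) < Real.logb 4 ((m + 1 * n : ℕ) : ℝ) + 1 / 2 ∧
    1 / 2 ≤ Real.logb 4 ((m + 2 * n : ℕ) : ℝ) := by
  have hm' : (1 : ℝ) ≤ m := by exact_mod_cast hm
  have hn' : (1 : ℝ) ≤ n := by exact_mod_cast hn
  have h2 : Real.logb 4 2 = 1 / 2 := by
    rw [Real.logb, show (4 : ℝ) = 2 ^ 2 by norm_num, Real.log_pow]
    have : Real.log 2 ≠ 0 := by positivity
    field_simp
    norm_num
  push_cast
  refine ⟨Real.logb_le_logb_of_le (by norm_num) (by positivity) (by linarith), ?_, ?_⟩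
  · rw [← h2, ← Real.logb_mul (by positivity) (by norm_num)]
    exact Real.logb_lt_logb (by norm_num) (by positivity) (by linarith)
  · rw [← h2]
    exact Real.logb_le_logb_of_le (by norm_num) (by positivity) (by linarith)

end Pool.Agent.H.MP_0a3467_an
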